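import Pool.Agent.W_7d29a1_Z9.Chain9

/-!
STORM Z, second storey (MP_7d29a1_pr): the chain over the scales for probabilities which are bounded by a given probability `P`.
(helper15, from helper9's `chain9i`)
-/

namespace Pool.Agent.W_7d29a1_Z15

open Real

/-- **The chain for `T ≤ P`.** -/
theorem chainP {c1 e : ℝ} (hc0 : 0 < c1) (hc1 : c1 ≤ 1) (he : 0 < e) : ∃ k : ℕ,
    ∀ {P : ℝ} (_ : 0 ≤ P) {T : ℕ → ℝ → ℝ} (_ : ∀ i M, 0 ≤ T i M) (_ : ∀ i M, T i M ≤ P) (_ : ∀ i j M, i ≤ j → T i M ≤ T j M)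
    {E ρ : ℕ → ℝ} {l i₀ I : ℕ} {C L ε A err : ℝ}
    (_ : ∀ i, 0 < E i) (_ : ∀ i j, i ≤ j → E i ≤ E j) (_ : 1 ≤ C)
    (_ : ∀ i j : ℕ, i ≤ j → E j ≤ C * (2 : ℝ) ^ (j - i) * E i)
    (_ : i₀ ≤ I) (_ : 2 ^ I ≤ l) (_ : l < 2 ^ (I + 1)) (_ : 1 ≤ L) (_ : (l : ℝ) ≤ 2 ^ i₀ * L)
    (_ : 8 * C * L ^ ε ≤ L ^ (e * c1 ^ 2))
    (_ : ∀ i : ℕ, i₀ ≤ i → (2 : ℝ) ^ i * L ^ e ≤ l → L ^ (-ε) * ((l : ℝ) / 2 ^ i) ^ c1 ≤ ρ i)
    (_ : 1 ≤ A) (_ : 0 ≤ err)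
    (_ : ∀ (i : ℕ) (M : ℝ), i₀ ≤ i → (2 : ℝ) ^ i * L ^ e ≤ l → E i ≤ M → M ≤ 8 * C * E i →
      T i M ≤ A * (M / (E i * ρ i)) * T i (E i * ρ i) + err),
    ∀ M, E i₀ ≤ M → T i₀ M ≤ A ^ k * (16 * C ^ 2 * L ^ e) * (M / E I) * P + k * A ^ k * err := by
  obtain ⟨k, hk⟩ := Pool.Agent.W_7d29a1_Z9.chain9i hc0 hc1 he
  refine ⟨k, fun {P} hP {T} hT0 hTP hTm {E ρ l i₀ I C L ε A err} hE hmono hC hgrow hi0 hIl hlI hL hlr hLe hρ hA herr step M hM => ?_⟩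
  rcases hP.eq_or_lt with hP0 | hP0
  · have h1 : T i₀ M ≤ 0 := by
      rw [hP0]
      exact hTP i₀ M
    rw [← hP0, mul_zero, zero_add]
    exact h1.trans (by positivity)
  · have h1 := hk (T := fun i M => T i M / P) (fun i M => div_nonneg (hT0 i M) hP)
      (fun i M => (div_le_one hP0).2 (hTP i M)) (fun i j M hij => div_le_div_of_nonneg_right (hTm i j M hij) hP)
      (E := E) (ρ := ρ) (l := l) (i₀ := i₀) (I := I) (C := C) (L := L) (ε := ε) (A := A) (err := err / P)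
      hE hmono hC hgrow hi0 hIl hlI hL hlr hLe hρ hA (div_nonneg herr hP) (fun i M' h2 h3 h4 h5 => by
        have h6 := div_le_div_of_nonneg_right (step i M' h2 h3 h4 h5) hP
        refine h6.trans (le_of_eq ?_)
        show (A * (M' / (E i * ρ i)) * T i (E i * ρ i) + err) / P = A * (M' / (E i * ρ i)) * (T i (E i * ρ i) / P) + err / P
        ring) M hM
    rw [div_le_iff₀ hP0] at h1
    refine h1.trans (le_of_eq ?_)
    have h7 : err / P * P = err := div_mul_cancel₀ _ hP0.ne'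
    calc (A ^ k * (16 * C ^ 2 * L ^ e) * (M / E I) + k * A ^ k * (err / P)) * P =
          A ^ k * (16 * C ^ 2 * L ^ e) * (M / E I) * P + k * A ^ k * (err / P * P) := by ring
      _ = _ := by rw [h7]

end Pool.Agent.W_7d29a1_Z15
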