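import Mathlib

/-!
STORM Z, leaf INN (MP_7d29a1_pr): the exponential numbers (`levelK`, `numE` of helper72's stub file), second hand. (helper15)
-/

namespace Pool.Agent.W_7d29a1_Z15

open Finset Filter Topology

/-- The first level. -/
theorem levelK15 {T P : ℝ} (hT : 0 < T) (hP : 0 < P) {L : ℕ} (h : 1 ≤ T * (L * P)) :
    ∃ K : ℕ, (∀ k < K, T * (2 ^ k * P) < 1) ∧ 1 ≤ T * (2 ^ K * P) ∧ (2 : ℝ) ^ K ≤ 2 * L := by
  classical
  have hL1 : 1 ≤ L := by
    rcases Nat.eq_zero_or_pos L with h0 | h0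
    · rw [h0, Nat.cast_zero, zero_mul, mul_zero] at h
      exact absurd h (by norm_num)
    · exact h0
  have hex : ∃ K : ℕ, 1 ≤ T * (2 ^ K * P) := by
    refine ⟨L, h.trans ?_⟩
    refine mul_le_mul_of_nonneg_left (mul_le_mul_of_nonneg_right ?_ hP.le) hT.le
    exact_mod_cast (Nat.lt_two_pow_self (n := L)).le
  refine ⟨Nat.find hex, fun k hk => not_le.1 (Nat.find_min hex hk), Nat.find_spec hex, ?_⟩
  have hLr : (1 : ℝ) ≤ L := by exact_mod_cast hL1
  rcases Nat.eq_zero_or_pos (Nat.find hex) with h0 | h0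
  · rw [h0, pow_zero]
    linarith
  · obtain ⟨k, hk⟩ : ∃ k, Nat.find hex = k + 1 := ⟨Nat.find hex - 1, by omega⟩
    have h1 : T * (2 ^ k * P) < 1 := not_le.1 (Nat.find_min hex (by omega))
    rw [hk, pow_succ]
    have h2 : T * (2 ^ k * P) < T * (L * P) := lt_of_lt_of_le h1 h
    have h3 : (2 : ℝ) ^ k * P < L * P := lt_of_mul_lt_mul_left h2 hT.le
    have h4 : (2 : ℝ) ^ k < L := lt_of_mul_lt_mul_right h3 hP.le
    linarith

theorem pow_le_exp15 {q c : ℝ} (hc : 0 < c) : ∃ L₀ : ℕ, ∀ L : ℕ, L₀ ≤ L → (L : ℝ) ^ q ≤ Real.exp ((L : ℝ) ^ c) := by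
  have h1 : ∀ᶠ y : ℝ in atTop, y ^ (q / c) ≤ Real.exp y := by
    have h2 := (isLittleO_rpow_exp_atTop (q / c)).bound (show (0 : ℝ) < 1 by norm_num)
    filter_upwards [h2, eventually_ge_atTop 0] with y hy hy0
    rw [one_mul, Real.norm_of_nonneg (Real.rpow_nonneg hy0 _), Real.norm_of_nonneg (Real.exp_pos _).le] at hy
    exact hy
  have h2 : Tendsto (fun L : ℕ => (L : ℝ) ^ c) atTop atTop := (tendsto_rpow_atTop hc).comp tendsto_natCast_atTop_atTop
  obtain ⟨L₀, hL₀⟩ := eventually_atTop.1 (h2.eventually h1)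
  refine ⟨L₀, fun L hL => ?_⟩
  have h3 := hL₀ L hL
  rw [← Real.rpow_mul (Nat.cast_nonneg L), mul_div_cancel₀ _ hc.ne'] at h3
  exact h3

theorem const_le_pow15 {K c : ℝ} (hc : 0 < c) : ∃ L₀ : ℕ, ∀ L : ℕ, L₀ ≤ L → K ≤ (L : ℝ) ^ c := by
  have h2 : Tendsto (fun L : ℕ => (L : ℝ) ^ c) atTop atTop := (tendsto_rpow_atTop hc).comp tendsto_natCast_atTop_atTop
  exact eventually_atTop.1 (h2.eventually_ge_atTop K)

theorem exp_half_pow (k : ℕ) : Real.exp ((k : ℝ) / 2) ≤ 2 ^ k := by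
  have h1 : Real.exp (1 / 2) ≤ 2 := by
    have h2 := Real.exp_one_lt_d9
    have h3 : Real.exp (1 / 2) * Real.exp (1 / 2) = Real.exp 1 := by
      rw [← Real.exp_add]
      norm_num
    have h4 := Real.exp_pos (1 / 2)
    by_contra hcon
    push Not at hcon
    have h5 : (2 : ℝ) * 2 ≤ Real.exp (1 / 2) * Real.exp (1 / 2) := mul_le_mul hcon.le hcon.le (by norm_num) h4.le
    linarith
  have h2 : Real.exp ((k : ℝ) / 2) = Real.exp (1 / 2) ^ k := by
    rw [← Real.exp_nat_mul]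
    congr 1
    ring
  rw [h2]
  exact pow_le_pow_left₀ (Real.exp_pos _).le h1 k

/-- The error of one step (copy of `errZ`). -/
noncomputable def errZ15 (L X N₀ : ℕ) (p lm u : ℝ) : ℝ :=
  (10 * ((L : ℝ) + 1)) ^ 20 * X * (p + Real.exp (-lm) + Real.exp (-(u ^ 2 / 64)) + (1 / 2) ^ N₀ +
    ((L : ℝ) + 2) ^ N₀ * (N₀ * (X * p)))

/-- The exponential conditions. -/
theorem numE15 {β cp : ℝ} (hβ : 0 < β) (hcp : 0 < cp) (n : ℕ) : ∃ c₁ : ℝ, 0 < c₁ ∧ ∃ L₀ : ℕ, ∀ L : ℕ, L₀ ≤ L →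
    ∃ (N₀ J : ℕ) (lm u : ℝ), 1 ≤ N₀ ∧ (N₀ : ℝ) ≤ (L : ℝ) ^ β ∧ (J : ℝ) + 1 ≤ (L : ℝ) ^ β ∧ 0 ≤ lm ∧ lm ≤ (L : ℝ) ^ β ∧
      0 ≤ u ∧ u ≤ (L : ℝ) ^ β ∧ (Nat.size L : ℝ) ≤ (L : ℝ) ^ β ∧
      (∀ K : ℕ, (2 : ℝ) ^ K ≤ 2 * L → (K : ℝ) + 1 ≤ (L : ℝ) ^ β) ∧
      ∀ (K B m X : ℕ) (p : ℝ), (2 : ℝ) ^ K ≤ 2 * L → B ≤ L → m ≤ L → (X : ℝ) ≤ (L : ℝ) ^ β → 0 ≤ p →
        p ≤ Real.exp (-(L : ℝ) ^ cp) →
        m * ((2 ^ (K + 3) * (2 * ((B : ℝ) + 1)) * B) ^ (n + 1) * (3 * errZ15 L X N₀ p lm u + (1 / 2) ^ J)) ≤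
          Real.exp (-(L : ℝ) ^ c₁) := by
  obtain ⟨b, hb⟩ : ∃ b, b = min β cp / 2 := ⟨_, rfl⟩
  have hb0 : 0 < b := by rw [hb]; exact half_pos (lt_min hβ hcp)
  have hbβ : b + b ≤ β := by
    rw [hb]
    have := min_le_left β cp
    linarith
  have hbc : b + b ≤ cp := by
    rw [hb]
    have := min_le_right β cp
    linarith
  obtain ⟨Cn, hCn⟩ : ∃ Cn : ℝ, Cn = 64 ^ (n + 1) * (18 * 20 ^ 20 + 2) := ⟨_, rfl⟩
  have hCn0 : 0 ≤ Cn := by rw [hCn]; positivity
  obtain ⟨Q, hQ⟩ : ∃ Q : ℝ, Q = 1 + 3 * ((n : ℝ) + 1) + (20 + 3 * β) := ⟨_, rfl⟩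
  obtain ⟨L₁, h1⟩ := const_le_pow15 (K := max 36 Cn) (c := b / 2) (by positivity)
  obtain ⟨L₂, h2⟩ := pow_le_exp15 (q := 4) hb0
  obtain ⟨L₃, h3⟩ := pow_le_exp15 (q := Q) (c := b / 2) (by positivity)
  refine ⟨b / 2, by positivity, L₁ + L₂ + L₃ + 3, fun L hL => ?_⟩
  specialize h1 L (by omega)
  specialize h2 L (by omega)
  specialize h3 L (by omega)
  have hL3 : (3 : ℝ) ≤ L := by exact_mod_cast (by omega : 3 ≤ L)
  have hL1 : (1 : ℝ) ≤ L := by linarith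
  have hL0 : (0 : ℝ) < L := by linarith
  -- `s = √y`, `y = L ^ b`
  obtain ⟨s, hs⟩ : ∃ s, s = (L : ℝ) ^ (b / 2) := ⟨_, rfl⟩
  obtain ⟨y, hy⟩ : ∃ y, y = (L : ℝ) ^ b := ⟨_, rfl⟩
  rw [← hs] at h1 h3
  rw [← hy] at h2
  have hsy : s * s = y := by
    rw [hs, hy, ← Real.rpow_add hL0]
    congr 1
    ring
  have hs36 : 36 ≤ s := (le_max_left _ _).trans h1
  have hsC : Cn ≤ s := (le_max_right _ _).trans h1
  have hys : 36 * s ≤ y := by
    rw [← hsy]
    exact mul_le_mul_of_nonneg_right hs36 (by linarith)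
  have hy36 : 36 * 36 ≤ y := by linarith
  have hyβ : y * y ≤ (L : ℝ) ^ β := by
    rw [hy, ← Real.rpow_add hL0]
    exact Real.rpow_le_rpow_of_exponent_le hL1 hbβ
  have hyc : y * y ≤ (L : ℝ) ^ cp := by
    rw [hy, ← Real.rpow_add hL0]
    exact Real.rpow_le_rpow_of_exponent_le hL1 hbc
  have hy2 : 36 * y ≤ y * y := mul_le_mul_of_nonneg_right (by linarith) (by linarith)
  have hy1β : y + 1 ≤ (L : ℝ) ^ β := by linarith
  have hexp : (L : ℝ) ^ 2 ≤ Real.exp (y / 2) := by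
    have e1 : ((L : ℝ) ^ 2) ^ 2 ≤ Real.exp (y / 2) ^ 2 := by
      have e2 : Real.exp (y / 2) ^ 2 = Real.exp y := by
        rw [← Real.exp_nat_mul]
        congr 1
        push_cast
        ring
      rw [e2]
      refine le_trans (le_of_eq ?_) h2
      rw [show (4 : ℝ) = ((4 : ℕ) : ℝ) by norm_num, Real.rpow_natCast]
      ring
    exact (pow_le_pow_iff_left₀ (by positivity) (Real.exp_pos _).le two_ne_zero).1 e1
  have hL22 : (L : ℝ) + 2 ≤ (L : ℝ) ^ 2 := by nlinarith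
  have hL2L : 2 * (L : ℝ) ≤ (L : ℝ) ^ 2 := by nlinarith
  have hKy : ∀ K : ℕ, (2 : ℝ) ^ K ≤ 2 * L → (K : ℝ) + 1 ≤ (L : ℝ) ^ β := by
    intro K hK
    have e1 := (exp_half_pow K).trans (hK.trans (hL2L.trans hexp))
    rw [Real.exp_le_exp] at e1
    linarith
  obtain ⟨N₀, hN₀⟩ : ∃ N₀, N₀ = ⌊y⌋₊ := ⟨_, rfl⟩
  have hNy : (N₀ : ℝ) ≤ y := by rw [hN₀]; exact Nat.floor_le (by linarith)
  have hNy' : y < N₀ + 1 := by rw [hN₀]; exact Nat.lt_floor_add_one y
  have hN1 : 1 ≤ N₀ := by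
    by_contra hcon
    have h0 : N₀ = 0 := by omega
    rw [h0, Nat.cast_zero] at hNy'
    linarith
  obtain ⟨z, hz⟩ : ∃ z, z = Real.exp (-(y / 2)) := ⟨_, rfl⟩
  have hz0 : 0 < z := by rw [hz]; exact Real.exp_pos _
  have hhalf : (1 / 2 : ℝ) ^ N₀ ≤ 2 * z := by
    have e1 := exp_half_pow N₀
    have e2 : (1 / 2 : ℝ) ^ N₀ ≤ Real.exp (-((N₀ : ℝ) / 2)) := by
      rw [one_div, inv_pow, Real.exp_neg]
      exact inv_anti₀ (Real.exp_pos _) e1
    refine e2.trans ?_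
    have e3 : Real.exp (-((N₀ : ℝ) / 2)) ≤ Real.exp (1 / 2 + -(y / 2)) := Real.exp_le_exp.2 (by linarith)
    refine e3.trans ?_
    rw [Real.exp_add, ← hz]
    refine mul_le_mul_of_nonneg_right ?_ hz0.le
    have e4 := exp_half_pow 1
    rw [Nat.cast_one, pow_one] at e4
    exact e4
  refine ⟨N₀, N₀, y, y, hN1, by linarith, by linarith, by linarith, by linarith, by linarith, by linarith, ?_, hKy, ?_⟩
  · -- the size
    obtain ⟨k, hk⟩ : ∃ k, Nat.size L = k + 1 := by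
      have : 0 < Nat.size L := Nat.size_pos.2 (by omega)
      exact ⟨Nat.size L - 1, by omega⟩
    have e1 : 2 ^ k ≤ L := by
      by_contra hcon
      have := Nat.size_le.2 (not_le.1 hcon)
      omega
    have e2 : (2 : ℝ) ^ k ≤ L := by exact_mod_cast e1
    rw [hk]
    push_cast
    exact hKy k (by linarith)
  · intro K B m X p hK hB hm hX hp hp'
    have hXL : (0 : ℝ) ≤ X := Nat.cast_nonneg X
    obtain ⟨w, hw⟩ : ∃ w, w = (L : ℝ) ^ β := ⟨_, rfl⟩
    have hw1 : 1 ≤ w := by rw [hw]; exact Real.one_le_rpow hL1 hβ.le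
    rw [← hw] at hX
    have hpz : p ≤ Real.exp (-(y * y)) := hp'.trans (Real.exp_le_exp.2 (by linarith))
    have hp1 : p ≤ z := by
      rw [hz]
      exact hpz.trans (Real.exp_le_exp.2 (by linarith))
    have he1 : Real.exp (-y) ≤ z := by
      rw [hz]
      exact Real.exp_le_exp.2 (by linarith)
    have he2 : Real.exp (-(y ^ 2 / 64)) ≤ z := by
      rw [hz]
      refine Real.exp_le_exp.2 ?_
      have : y ^ 2 = y * y := sq y
      linarith
    have hlast : ((L : ℝ) + 2) ^ N₀ * (N₀ * (X * p)) ≤ w * w * z := by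
      have e1 : ((L : ℝ) + 2) ^ N₀ ≤ Real.exp (y * y / 2) := by
        calc ((L : ℝ) + 2) ^ N₀ ≤ Real.exp (y / 2) ^ N₀ := pow_le_pow_left₀ (by positivity) (hL22.trans hexp) N₀
          _ = Real.exp (N₀ * (y / 2)) := (Real.exp_nat_mul _ _).symm
          _ ≤ Real.exp (y * y / 2) := Real.exp_le_exp.2 (by
              have := mul_le_mul_of_nonneg_right hNy (show 0 ≤ y / 2 by linarith)
              linarith)
      have e2 : (N₀ : ℝ) * (X * p) ≤ w * (w * Real.exp (-(y * y))) := by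
        refine mul_le_mul ?_ (mul_le_mul hX hpz hp (by linarith)) (by positivity) (by linarith)
        rw [hw]
        linarith
      calc ((L : ℝ) + 2) ^ N₀ * (N₀ * (X * p)) ≤ Real.exp (y * y / 2) * (w * (w * Real.exp (-(y * y)))) :=
            mul_le_mul e1 e2 (by positivity) (Real.exp_pos _).le
        _ = w * w * Real.exp (-(y * y / 2)) := by
            have e3 : Real.exp (y * y / 2) * Real.exp (-(y * y)) = Real.exp (-(y * y / 2)) := by
              rw [← Real.exp_add]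
              congr 1
              ring
            rw [← e3]
            ring
        _ ≤ w * w * z := by
            refine mul_le_mul_of_nonneg_left ?_ (by positivity)
            rw [hz]
            exact Real.exp_le_exp.2 (by linarith)
    have hww : 1 ≤ w * w := one_le_mul_of_one_le_of_one_le hw1 hw1
    have hin : p + Real.exp (-y) + Real.exp (-(y ^ 2 / 64)) + (1 / 2) ^ N₀ + ((L : ℝ) + 2) ^ N₀ * (N₀ * (X * p)) ≤
        6 * (w * w) * z := by
      have e1 : z ≤ w * w * z := le_mul_of_one_le_left hz0.le hww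
      linarith
    have hin0 : 0 ≤ p + Real.exp (-y) + Real.exp (-(y ^ 2 / 64)) + (1 / 2) ^ N₀ + ((L : ℝ) + 2) ^ N₀ * (N₀ * (X * p)) := by
      positivity
    have herr : errZ15 L X N₀ p y y ≤ (20 * (L : ℝ)) ^ 20 * w * (6 * (w * w) * z) := by
      unfold errZ15
      refine mul_le_mul (mul_le_mul ?_ hX hXL (by positivity)) hin hin0 (by positivity)
      exact pow_le_pow_left₀ (by positivity) (by linarith) 20
    have hL20 : (1 : ℝ) ≤ (L : ℝ) ^ 20 := one_le_pow₀ hL1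
    have hsum : 3 * errZ15 L X N₀ p y y + (1 / 2) ^ N₀ ≤ (18 * 20 ^ 20 + 2) * ((L : ℝ) ^ 20 * (w * w * w) * z) := by
      have e1 : 1 ≤ (L : ℝ) ^ 20 * (w * w * w) :=
        one_le_mul_of_one_le_of_one_le hL20 (one_le_mul_of_one_le_of_one_le hww hw1)
      have e2 : z ≤ (L : ℝ) ^ 20 * (w * w * w) * z := le_mul_of_one_le_left hz0.le e1
      have e3 : (20 * (L : ℝ)) ^ 20 * w * (6 * (w * w) * z) = 6 * 20 ^ 20 * ((L : ℝ) ^ 20 * (w * w * w) * z) := by
        rw [mul_pow]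
        ring
      rw [e3] at herr
      linarith
    have herr0 : 0 ≤ errZ15 L X N₀ p y y := by
      unfold errZ15
      exact mul_nonneg (by positivity) hin0
    have hpre : (2 ^ (K + 3) * (2 * ((B : ℝ) + 1)) * B) ^ (n + 1) ≤ (64 * (L : ℝ) ^ 3) ^ (n + 1) := by
      refine pow_le_pow_left₀ (by positivity) ?_ _
      have hBL : (B : ℝ) ≤ L := by exact_mod_cast hB
      have hB0 : (0 : ℝ) ≤ B := Nat.cast_nonneg B
      have e1 : (2 : ℝ) ^ (K + 3) ≤ 16 * L := by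
        rw [pow_add]
        linarith
      have e2 : 2 * ((B : ℝ) + 1) ≤ 4 * L := by linarith
      calc (2 : ℝ) ^ (K + 3) * (2 * ((B : ℝ) + 1)) * B ≤ 16 * L * (4 * L) * L :=
            mul_le_mul (mul_le_mul e1 e2 (by positivity) (by positivity)) hBL hB0 (by positivity)
        _ = 64 * (L : ℝ) ^ 3 := by ring
    have hmL : (m : ℝ) ≤ L := by exact_mod_cast hm
    have htot : m * ((2 ^ (K + 3) * (2 * ((B : ℝ) + 1)) * B) ^ (n + 1) * (3 * errZ15 L X N₀ p y y + (1 / 2) ^ N₀)) ≤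
        L * ((64 * (L : ℝ) ^ 3) ^ (n + 1) * ((18 * 20 ^ 20 + 2) * ((L : ℝ) ^ 20 * (w * w * w) * z))) :=
      mul_le_mul hmL (mul_le_mul hpre hsum (by positivity) (by positivity)) (by positivity) hL0.le
    refine htot.trans ?_
    have hall : L * ((64 * (L : ℝ) ^ 3) ^ (n + 1) * ((18 * 20 ^ 20 + 2) * ((L : ℝ) ^ 20 * (w * w * w) * z))) =
        Cn * (L : ℝ) ^ Q * z := by
      have e1 : (L : ℝ) ^ Q = L * ((L : ℝ) ^ 3) ^ (n + 1) * ((L : ℝ) ^ 20 * (w * w * w)) := by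
        rw [hQ, Real.rpow_add hL0, Real.rpow_add hL0, Real.rpow_one, Real.rpow_add hL0]
        congr 1
        · congr 1
          rw [← pow_mul, ← Real.rpow_natCast]
          congr 1
          push_cast
          ring
        · congr 1
          · rw [show (20 : ℝ) = ((20 : ℕ) : ℝ) by norm_num, Real.rpow_natCast]
          · rw [hw, ← Real.rpow_add hL0, ← Real.rpow_add hL0]
            congr 1
            ring
      rw [e1, hCn, mul_pow]
      ring
    rw [hall]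
    rw [← hs]
    have hCe : Cn ≤ Real.exp s := by
      have := Real.add_one_le_exp s
      linarith
    have hze : z ≤ Real.exp (-(3 * s)) := by
      rw [hz]
      exact Real.exp_le_exp.2 (by linarith)
    calc Cn * (L : ℝ) ^ Q * z ≤ Real.exp s * Real.exp s * Real.exp (-(3 * s)) :=
          mul_le_mul (mul_le_mul hCe h3 (by positivity) (Real.exp_pos _).le) hze hz0.le (by positivity)
      _ = Real.exp (-s) := by
          rw [← Real.exp_add, ← Real.exp_add]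
          congr 1
          ring

end Pool.Agent.W_7d29a1_Z15
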