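import Mathlib

/-!
STORM Z, leaf INN (MP_7d29a1_pr): the algebraic numbers (`numA` of helper72's stub file). (helper15)
-/

namespace Pool.Agent.W_7d29a1_Z15

open Finset

/-- The algebraic conditions, with `c₀ = x ^ 2`, `G = 6 x ^ 2 (J + 1)`, `h = 2 (u + 4)`, `lc = x ^ 13`,
`s₀ = x ^ 30`, `T = x ^ 60`, `κ₀ = x ^ 8`. -/
theorem numA15 : ∃ x₀ : ℝ, 1 ≤ x₀ ∧ ∀ x : ℝ, x₀ ≤ x → ∀ (X N₀ J K : ℕ) (r q A lm u : ℝ), 1 ≤ X → (X : ℝ) ≤ x → 0 ≤ r →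
    r ≤ x * q → 0 < q → 1 ≤ A → 1 ≤ N₀ → (N₀ : ℝ) ≤ x → (J : ℝ) + 1 ≤ x → (K : ℝ) + 1 ≤ x → 0 ≤ lm → lm ≤ x → 0 ≤ u →
    u ≤ x →
    8 ≤ x ^ 2 ∧ 16 * ((K : ℝ) + 1) ^ 2 ≤ x ^ 30 ∧ 2 * (u + 4) ≤ x ^ 2 / 2 ∧
    (3 / 2 * (6 * x ^ 2 * ((J : ℝ) + 1)) + 2 * (u + 4)) * (24 * x ^ 13) ≤ x ^ 2 * √(x ^ 30) ∧
    (3 / 2 * (6 * x ^ 2 * ((J : ℝ) + 1)) + 2 * (u + 4)) * (8 * (x ^ 13) ^ 2) ≤ x ^ 2 * x ^ 60 ∧
    X * (r * ((6 * x ^ 2 * ((J : ℝ) + 1) + 3 * (2 * (u + 4)) + 12 + 3 * lm) * A)) ≤ x ^ 8 * (A * q) ∧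
    1 * (4 * (N₀ : ℝ) * (10 : ℕ) * (x ^ 8 * 2 * 2 + 1)) + 2 ≤ x ^ 13 ∧
    2 * (2 * x ^ 30 + 1) * (X * (r * ((2 * (6 * x ^ 2 * ((J : ℝ) + 1) + 2) * √(x ^ 30) + 2 * (2 * (u + 4)) + 12 +
      3 * lm) * A))) ≤ x ^ 60 * (A * q) ∧
    ∀ m : ℕ, (2 * x ^ 2 * ((J : ℝ) + 1) * √(m : ℝ) + 8 * x ^ 2 * ((J : ℝ) + 1) * x ^ 60 * ((K : ℝ) + 1) * m *
      (1 * (A * q))) * (1 * A) ≤ x ^ 66 * (√(m : ℝ) + m * (A * q)) * A := by
  refine ⟨1000, by norm_num, fun x hx X N₀ J K r q A lm u _ hX hr hrq hq hA _ hN hJ hK hlm hlm' hu hu' => ?_⟩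
  have hx0 : (0 : ℝ) < x := by linarith
  have hx1 : (1 : ℝ) ≤ x := by linarith
  have hA0 : 0 < A := by linarith
  have hs : √(x ^ 30) = x ^ 15 := by
    rw [show x ^ 30 = (x ^ 15) ^ 2 by ring, Real.sqrt_sq (by positivity)]
  rw [hs]
  obtain ⟨j, hj⟩ : ∃ j : ℝ, j = (J : ℝ) + 1 := ⟨_, rfl⟩
  obtain ⟨k, hk⟩ : ∃ k : ℝ, k = (K : ℝ) + 1 := ⟨_, rfl⟩
  have hj0 : 0 ≤ j := by rw [hj]; positivity
  have hk0 : 0 ≤ k := by rw [hk]; positivity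
  rw [← hj, ← hk]
  rw [← hj] at hJ
  rw [← hk] at hK
  have hX0 : (0 : ℝ) ≤ X := Nat.cast_nonneg X
  have hN0 : (0 : ℝ) ≤ N₀ := Nat.cast_nonneg N₀
  have hpow : ∀ {a b : ℕ}, a ≤ b → x ^ a ≤ x ^ b := fun h => pow_le_pow_right₀ hx1 h
  have hmul : ∀ a : ℕ, 1000 * x ^ a ≤ x ^ (a + 1) := fun a => by
    rw [pow_succ, mul_comm]
    exact mul_le_mul_of_nonneg_left hx (by positivity)
  have h1 := hmul 0
  have h2 := hmul 1
  have h3 := hmul 2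
  simp only [pow_zero, mul_one, zero_add, pow_one, Nat.reduceAdd] at h1 h2 h3
  -- `6 x² j ≤ 6 x³`
  have hg : 6 * x ^ 2 * j ≤ 6 * x ^ 3 := by
    have := mul_le_mul_of_nonneg_left hJ (show 0 ≤ 6 * x ^ 2 by positivity)
    calc 6 * x ^ 2 * j ≤ 6 * x ^ 2 * x := this
      _ = 6 * x ^ 3 := by ring
  have hg0 : 0 ≤ 6 * x ^ 2 * j := by positivity
  have hb : 3 / 2 * (6 * x ^ 2 * j) + 2 * (u + 4) ≤ 10 * x ^ 3 := by linarith
  have hrA : (X : ℝ) * (r * A) ≤ x ^ 2 * (A * q) := by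
    have e1 : r * A ≤ x * q * A := mul_le_mul_of_nonneg_right hrq hA0.le
    have e2 : (X : ℝ) * (r * A) ≤ x * (x * q * A) := mul_le_mul hX e1 (by positivity) hx0.le
    calc (X : ℝ) * (r * A) ≤ x * (x * q * A) := e2
      _ = x ^ 2 * (A * q) := by ring
  have hAq : 0 < A * q := by positivity
  refine ⟨by nlinarith, ?_, by nlinarith, ?_, ?_, ?_, ?_, ?_, fun m => ?_⟩
  · have e1 : k ^ 2 ≤ x ^ 2 := pow_le_pow_left₀ hk0 hK 2
    calc 16 * k ^ 2 ≤ 16 * x ^ 2 := by linarith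
      _ ≤ x ^ 3 := by linarith
      _ ≤ x ^ 30 := hpow (by norm_num)
  · calc (3 / 2 * (6 * x ^ 2 * j) + 2 * (u + 4)) * (24 * x ^ 13) ≤ 10 * x ^ 3 * (24 * x ^ 13) :=
          mul_le_mul_of_nonneg_right hb (by positivity)
      _ = 240 * x ^ 16 := by ring
      _ ≤ 1000 * x ^ 16 := by
          have : 0 < x ^ 16 := by positivity
          linarith
      _ ≤ x ^ 17 := hmul 16
      _ = x ^ 2 * x ^ 15 := by ring
  · calc (3 / 2 * (6 * x ^ 2 * j) + 2 * (u + 4)) * (8 * (x ^ 13) ^ 2) ≤ 10 * x ^ 3 * (8 * (x ^ 13) ^ 2) :=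
          mul_le_mul_of_nonneg_right hb (by positivity)
      _ = 80 * x ^ 29 := by ring
      _ ≤ 1000 * x ^ 29 := by
          have : 0 < x ^ 29 := by positivity
          linarith
      _ ≤ x ^ 30 := hmul 29
      _ ≤ x ^ 62 := hpow (by norm_num)
      _ = x ^ 2 * x ^ 60 := by ring
  · have e1 : 6 * x ^ 2 * j + 3 * (2 * (u + 4)) + 12 + 3 * lm ≤ 7 * x ^ 3 := by linarith
    calc (X : ℝ) * (r * ((6 * x ^ 2 * j + 3 * (2 * (u + 4)) + 12 + 3 * lm) * A)) =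
          (6 * x ^ 2 * j + 3 * (2 * (u + 4)) + 12 + 3 * lm) * ((X : ℝ) * (r * A)) := by ring
      _ ≤ 7 * x ^ 3 * (x ^ 2 * (A * q)) := mul_le_mul e1 hrA (by positivity) (by positivity)
      _ = 7 * x ^ 5 * (A * q) := by ring
      _ ≤ x ^ 8 * (A * q) := by
          refine mul_le_mul_of_nonneg_right ?_ hAq.le
          have f1 := hmul 5
          have f2 : x ^ 6 ≤ x ^ 8 := hpow (by norm_num)
          have f3 : 0 < x ^ 5 := by positivity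
          simp only [Nat.reduceAdd] at f1
          linarith
  · push_cast
    have e1 : 4 * (N₀ : ℝ) * 10 * (x ^ 8 * 2 * 2 + 1) ≤ 4 * x * 10 * (x ^ 8 * 2 * 2 + 1) := by
      refine mul_le_mul_of_nonneg_right ?_ (by positivity)
      linarith
    have e2 : 4 * x * 10 * (x ^ 8 * 2 * 2 + 1) = 160 * x ^ 9 + 40 * x := by ring
    have f1 := hmul 9
    have f2 : x ^ 10 ≤ x ^ 13 := hpow (by norm_num)
    have f3 : x ≤ x ^ 9 := by
      have := hpow (a := 1) (b := 9) (by norm_num)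
      rwa [pow_one] at this
    simp only [Nat.reduceAdd] at f1
    linarith
  · have e1 : 2 * (6 * x ^ 2 * j + 2) * x ^ 15 + 2 * (2 * (u + 4)) + 12 + 3 * lm ≤ 13 * x ^ 18 := by
      have f1 : 2 * (6 * x ^ 2 * j + 2) * x ^ 15 ≤ 2 * (6 * x ^ 3 + 2) * x ^ 15 := by
        refine mul_le_mul_of_nonneg_right ?_ (by positivity)
        linarith
      have f2 : 2 * (6 * x ^ 3 + 2) * x ^ 15 = 12 * x ^ 18 + 4 * x ^ 15 := by ring
      have f3 := hmul 15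
      have f4 : x ^ 16 ≤ x ^ 18 := hpow (by norm_num)
      have f5 := hmul 1
      have f6 : x ^ 2 ≤ x ^ 15 := hpow (by norm_num)
      have f7 : 0 < x ^ 15 := by positivity
      simp only [Nat.reduceAdd, pow_one] at f3 f5
      linarith
    have e2 : 2 * (2 * x ^ 30 + 1) ≤ 6 * x ^ 30 := by
      have : 1 ≤ x ^ 30 := one_le_pow₀ hx1
      linarith
    calc 2 * (2 * x ^ 30 + 1) * ((X : ℝ) * (r * ((2 * (6 * x ^ 2 * j + 2) * x ^ 15 + 2 * (2 * (u + 4)) + 12 + 3 * lm) * A))) =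
          2 * (2 * x ^ 30 + 1) * ((2 * (6 * x ^ 2 * j + 2) * x ^ 15 + 2 * (2 * (u + 4)) + 12 + 3 * lm) * ((X : ℝ) * (r * A))) := by
            ring
      _ ≤ 6 * x ^ 30 * (13 * x ^ 18 * (x ^ 2 * (A * q))) := by
          refine mul_le_mul e2 (mul_le_mul e1 hrA (by positivity) (by positivity)) ?_ (by positivity)
          have : 0 ≤ 2 * (6 * x ^ 2 * j + 2) * x ^ 15 + 2 * (2 * (u + 4)) + 12 + 3 * lm := by positivity
          positivity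
      _ = 78 * x ^ 50 * (A * q) := by ring
      _ ≤ x ^ 60 * (A * q) := by
          refine mul_le_mul_of_nonneg_right ?_ hAq.le
          have f1 := hmul 50
          have f2 : x ^ 51 ≤ x ^ 60 := hpow (by norm_num)
          have f3 : 0 < x ^ 50 := by positivity
          simp only [Nat.reduceAdd] at f1
          linarith
  · obtain ⟨s, hs⟩ : ∃ s : ℝ, s = √(m : ℝ) := ⟨_, rfl⟩
    have hs0 : 0 ≤ s := by rw [hs]; exact Real.sqrt_nonneg _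
    have hm0 : (0 : ℝ) ≤ m := Nat.cast_nonneg m
    rw [← hs]
    have e1 : 2 * x ^ 2 * j * s ≤ x ^ 66 * s := by
      refine mul_le_mul_of_nonneg_right ?_ hs0
      have f1 : 2 * x ^ 2 * j ≤ 2 * x ^ 2 * x := mul_le_mul_of_nonneg_left hJ (by positivity)
      have f2 : 2 * x ^ 2 * x = 2 * x ^ 3 := by ring
      have f3 := hmul 3
      have f4 : x ^ 4 ≤ x ^ 66 := hpow (by norm_num)
      have f5 : 0 < x ^ 3 := by positivity
      simp only [Nat.reduceAdd] at f3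
      linarith
    have e2 : 8 * x ^ 2 * j * x ^ 60 * k * m * (1 * (A * q)) ≤ x ^ 66 * (m * (A * q)) := by
      have f1 : 8 * x ^ 2 * j * x ^ 60 * k ≤ 8 * x ^ 2 * x * x ^ 60 * x := by
        refine mul_le_mul ?_ hK hk0 (by positivity)
        exact mul_le_mul_of_nonneg_right (mul_le_mul_of_nonneg_left hJ (by positivity)) (by positivity)
      have f2 : 8 * x ^ 2 * x * x ^ 60 * x = 8 * x ^ 64 := by ring
      have f3 := hmul 64
      have f4 : x ^ 65 ≤ x ^ 66 := hpow (by norm_num)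
      have f5 : 0 < x ^ 64 := by positivity
      simp only [Nat.reduceAdd] at f3
      have f6 : 8 * x ^ 2 * j * x ^ 60 * k ≤ x ^ 66 := by linarith
      calc 8 * x ^ 2 * j * x ^ 60 * k * m * (1 * (A * q)) = 8 * x ^ 2 * j * x ^ 60 * k * (m * (A * q)) := by ring
        _ ≤ x ^ 66 * (m * (A * q)) := mul_le_mul_of_nonneg_right f6 (by positivity)
    calc (2 * x ^ 2 * j * s + 8 * x ^ 2 * j * x ^ 60 * k * m * (1 * (A * q))) * (1 * A) ≤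
          (x ^ 66 * s + x ^ 66 * (m * (A * q))) * (1 * A) := mul_le_mul_of_nonneg_right (add_le_add e1 e2) (by linarith)
      _ = x ^ 66 * (s + m * (A * q)) * A := by ring

end Pool.Agent.W_7d29a1_Z15
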